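import Pool.Agent.H79.OR3

set_option autoImplicit false

namespace Pool.Agent.Results.MP_d3a611_gt.VirtNilpotent

open Pool.Agent.H15.Oll Pool.Agent.H79

/-- If a Cayley graph of `G` has non-negative Ollivier-Ricci curvature, and some finite-index
subgroup `N` is nilpotent, then `G` is virtually abelian. -/
theorem result (G : Type) [Group G] (S : Finset G) (h1 : (1 : G) ∉ S) (hs : ∀ s ∈ S, s⁻¹ ∈ S)
    (hg : Subgroup.closure (S : Set G) = ⊤)
    (hκ : ∀ x y, (SimpleGraph.mulCayley (S : Set G)).Adj x y →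
      0 ≤ kappa (SimpleGraph.mulCayley (S : Set G)) x y)
    (N : Subgroup G) [N.FiniteIndex] [Group.IsNilpotent N] :
    ∃ A : Subgroup G, A.FiniteIndex ∧ ∀ a ∈ A, ∀ b ∈ A, a * b = b * a :=
  OR3.final ⟨h1, hs, hg⟩ hκ N

end Pool.Agent.Results.MP_d3a611_gt.VirtNilpotent
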